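import Pool.Agent.H.MP_078f6d_al.A

set_option autoImplicit false
open TensorProduct

namespace Pool.Agent.Results.MP_078f6d_al.Yes

/-- A scalar is nonnegative if its image in `ℂ` is a real number `≥ 0`. -/
def Nonneg {k : Type} [Field k] (φ : k →+* ℂ) (a : k) : Prop := (φ a).im = 0 ∧ 0 ≤ (φ a).re

/-- The map `Φ = (id ⊗ m) ∘ (Δ ⊗ id) : H ⊗ H → H ⊗ H` (with the associator written out). -/
noncomputable def Phi (k H : Type) [Field k] [Ring H] [HopfAlgebra k H] : H ⊗[k] H →ₗ[k] H ⊗[k] H :=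
  (LinearMap.mul' k H).lTensor H ∘ₗ (TensorProduct.assoc k H H H).toLinearMap ∘ₗ
    (Coalgebra.comul (R := k) (A := H)).rTensor H

theorem result (k H : Type) [Field k] [CharZero k] (φ : k →+* ℂ) [Ring H] [HopfAlgebra k H]
    (ι : Type) (b : Module.Basis ι k H) (hb : ∀ i j, ∃ i' j', Phi k H (b i ⊗ₜ[k] b j) = b i' ⊗ₜ[k] b j') :
    ∃ (κ : Type) (B : Module.Basis κ k H),
      (∀ x, Nonneg φ (B.repr 1 x)) ∧
      (∀ x, Nonneg φ (Coalgebra.counit (R := k) (B x))) ∧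
      (∀ x y z, Nonneg φ (B.repr (B x * B y) z)) ∧
      (∀ x p, Nonneg φ ((B.tensorProduct B).repr (Coalgebra.comul (R := k) (B x)) p)) ∧
      ∀ x y, Nonneg φ (B.repr (HopfAlgebra.antipode k (B x)) y) := by
  obtain ⟨B, h1, h2, h3, h4, h5⟩ := Pool.Agent.H.MP_078f6d_al.pos b fun i j => by
    simpa [Phi, Pool.Agent.H.MP_078f6d_al.as] using hb i j
  have nn : ∀ a : k, (∃ n : ℕ, a = n) → Nonneg φ a := fun a ⟨n, e⟩ => by simp [Nonneg, e]
  exact ⟨ι, B, fun x => nn _ (h1 x), fun x => nn _ (h2 x), fun x y z => nn _ (h3 x y z), fun x p => nn _ (h4 x p),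
    fun x y => nn _ (h5 x y)⟩

end Pool.Agent.Results.MP_078f6d_al.Yes
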